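import Pool.Agent.W701.TWB.Up1

set_option autoImplicit false

noncomputable section

namespace Pool.Agent.W701.TWB

open MeasureTheory Set Filter Metric
open Pool.Agent.W734.TWB

/-! ### energies -/

lemma kin_nonneg {N : ℕ} (ψ : Cfg N → ℂ) (x : Cfg N) : 0 ≤ kin ψ x :=
  Finset.sum_nonneg fun _ _ => Finset.sum_nonneg fun _ _ => sq_nonneg _

lemma enN_nonneg (N : ℕ) (Vext W : E3 → ℝ) (V : E3 × E3 → ℝ) (hE : AdmE Vext) (hW : AdmW W)
    (hV : AdmV V) (ψ : Cfg N → ℂ) : 0 ≤ enN N Vext W V ψ := by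
  unfold enN
  refine integral_nonneg fun x => ?_
  have h1 : 0 ≤ kin ψ x := kin_nonneg ψ x
  have h2 : 0 ≤ ∑ i : Fin N, Vext (x i) := Finset.sum_nonneg fun i _ => vext_nonneg hE _
  have h3 : 0 ≤ pairS (Wn N W) x := by
    refine Finset.sum_nonneg fun i _ => Finset.sum_nonneg fun j _ => ?_
    have := hW.nonneg ((N : ℝ) • (x i - x j))
    unfold Wn
    positivity
  have h4 : 0 ≤ tripS (Vn N V) x := by
    refine Finset.sum_nonneg fun i _ => Finset.sum_nonneg fun j _ =>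
      Finset.sum_nonneg fun k _ => ?_
    have := hV.nonneg (Real.sqrt N • (x i - x j, x i - x k))
    unfold Vn
    positivity
  simp only [Pi.zero_apply]
  positivity

lemma kin_smul {N : ℕ} (ψ : Cfg N → ℂ) (hψ : Differentiable ℝ ψ) (c : ℝ) (x : Cfg N) :
    kin (fun y => (c : ℂ) * ψ y) x = c ^ 2 * kin ψ x := by
  unfold kin gsq
  rw [fderiv_const_mul (hψ x)]
  rw [Finset.mul_sum]
  refine Finset.sum_congr rfl fun i _ => ?_
  rw [Finset.mul_sum]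
  refine Finset.sum_congr rfl fun k _ => ?_
  rw [_root_.smul_apply, smul_eq_mul, norm_mul, mul_pow, Complex.norm_real,
    Real.norm_eq_abs, sq_abs]

lemma enN_smul (N : ℕ) (Vext W : E3 → ℝ) (V : E3 × E3 → ℝ) (ψ : Cfg N → ℂ)
    (hψ : Differentiable ℝ ψ) (c : ℝ) :
    enN N Vext W V (fun y => (c : ℂ) * ψ y) = c ^ 2 * enN N Vext W V ψ := by
  unfold enN
  rw [← integral_const_mul]
  refine integral_congr_ae (Eventually.of_forall fun x => ?_)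
  simp only
  rw [kin_smul ψ hψ, norm_mul, mul_pow, Complex.norm_real, Real.norm_eq_abs, sq_abs]
  ring

lemma EN_le (N : ℕ) (Vext W : E3 → ℝ) (V : E3 × E3 → ℝ) (hE : AdmE Vext) (hW : AdmW W)
    (hV : AdmV V) (ψ : Cfg N → ℂ) (h1 : ContDiff ℝ ((⊤ : ℕ∞) : WithTop ℕ∞) ψ)
    (h2 : HasCompactSupport ψ) (h3 : ∀ (σ : Equiv.Perm (Fin N)) (x : Cfg N), ψ (x ∘ σ) = ψ x)
    (Z : ℝ) (hZ : 0 < Z) (h4 : ∫ x, ‖ψ x‖ ^ 2 = Z) :
    EN N Vext W V ≤ enN N Vext W V ψ / Z := by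
  have hs : 0 < Real.sqrt Z := Real.sqrt_pos.mpr hZ
  have hd : Differentiable ℝ ψ := h1.differentiable (by simp)
  have e1 : enN N Vext W V ψ / Z
      = enN N Vext W V (fun y => (((Real.sqrt Z)⁻¹ : ℝ) : ℂ) * ψ y) := by
    rw [enN_smul N Vext W V ψ hd, inv_pow, Real.sq_sqrt hZ.le]
    field_simp
  rw [e1]
  unfold EN
  refine csInf_le ⟨0, ?_⟩ ⟨_, ?_, ?_, ?_, ?_, rfl⟩
  · rintro E ⟨φ, _, _, _, _, rfl⟩
    exact enN_nonneg N Vext W V hE hW hV φ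
  · exact contDiff_const.mul h1
  · exact h2.comp_left (g := fun t : ℂ => (((Real.sqrt Z)⁻¹ : ℝ) : ℂ) * t) (by simp)
  · intro σ x
    rw [h3 σ x]
  · have : ∀ x, ‖(((Real.sqrt Z)⁻¹ : ℝ) : ℂ) * ψ x‖ ^ 2 = Z⁻¹ * ‖ψ x‖ ^ 2 := by
      intro x
      rw [norm_mul, mul_pow, Complex.norm_real, Real.norm_eq_abs, sq_abs, inv_pow,
        Real.sq_sqrt hZ.le]
    simp_rw [this]
    rw [integral_const_mul, h4]
    exact inv_mul_cancel₀ hZ.ne'

/-! ### partition functions -/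

lemma ZA_empty (f1 : E3 → ℝ) (f2 : E3 × E3 → ℝ) (u : E3 → ℂ) (hu : Orb u) (N : ℕ) :
    ZA f1 f2 u (∅ : Finset (Fin N)) = 1 := by
  unfold ZA
  have h : ∀ x : Cfg N, wu u x * (JA f1 f2 ∅ x) ^ 2 = ∏ i, ‖u (x i)‖ ^ 2 := by
    intro x
    simp [wu, JA]
  simp_rw [h]
  rw [integral_fintype_prod_volume_eq_prod (fun (_ : Fin N) (z : E3) => ‖u z‖ ^ 2)]
  simp [hu.norm]

lemma ZA_pos (f1 : E3 → ℝ) (f2 : E3 × E3 → ℝ) (u : E3 → ℂ) (hu : Orb u) (N : ℕ) (K : ℝ)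
    (hK : 0 < K) (h : ∀ (A : Finset (Fin N)) (i : Fin N), i ∈ A →
      ZA f1 f2 u (A.erase i) ≤ K * ZA f1 f2 u A) (A : Finset (Fin N)) : 0 < ZA f1 f2 u A := by
  induction A using Finset.induction_on with
  | empty => rw [ZA_empty f1 f2 u hu]; norm_num
  | insert i A hi ih =>
    have h1 := h (insert i A) i (Finset.mem_insert_self _ _)
    rw [Finset.erase_insert hi] at h1
    exact (mul_pos_iff_of_pos_left hK).mp (lt_of_lt_of_le ih h1)

lemma ZA_two (f1 : E3 → ℝ) (f2 : E3 × E3 → ℝ) (u : E3 → ℂ) (N : ℕ) (K : ℝ)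
    (hK : 0 < K) (h : ∀ (A : Finset (Fin N)) (i : Fin N), i ∈ A →
      ZA f1 f2 u (A.erase i) ≤ K * ZA f1 f2 u A) (i j : Fin N) (hij : i ≠ j) :
    ZA f1 f2 u (Finset.univ \ {i, j}) ≤ K ^ 2 * ZA f1 f2 u (Finset.univ : Finset (Fin N)) := by
  have e : (Finset.univ : Finset (Fin N)) \ {i, j} = (Finset.univ.erase i).erase j := by
    ext a
    simp only [Finset.mem_sdiff, Finset.mem_univ, true_and, Finset.mem_insert,
      Finset.mem_singleton, Finset.mem_erase]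
    tauto
  rw [e]
  have h1 := h (Finset.univ.erase i) j (Finset.mem_erase.mpr ⟨hij.symm, Finset.mem_univ _⟩)
  have h2 := h Finset.univ i (Finset.mem_univ _)
  calc ZA f1 f2 u ((Finset.univ.erase i).erase j) ≤ K * ZA f1 f2 u (Finset.univ.erase i) := h1
    _ ≤ K * (K * ZA f1 f2 u Finset.univ) := mul_le_mul_of_nonneg_left h2 hK.le
    _ = _ := by ring

lemma ZA_three (f1 : E3 → ℝ) (f2 : E3 × E3 → ℝ) (u : E3 → ℂ) (N : ℕ) (K : ℝ)
    (hK : 0 < K) (h : ∀ (A : Finset (Fin N)) (i : Fin N), i ∈ A →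
      ZA f1 f2 u (A.erase i) ≤ K * ZA f1 f2 u A) (i j k : Fin N) (hij : i ≠ j) (hik : i ≠ k)
    (hjk : j ≠ k) :
    ZA f1 f2 u (Finset.univ \ {i, j, k}) ≤ K ^ 3 * ZA f1 f2 u (Finset.univ : Finset (Fin N)) := by
  have e : (Finset.univ : Finset (Fin N)) \ {i, j, k}
      = (Finset.univ \ {i, j} : Finset (Fin N)).erase k := by
    ext a
    simp only [Finset.mem_sdiff, Finset.mem_univ, true_and, Finset.mem_insert,
      Finset.mem_singleton, Finset.mem_erase]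
    tauto
  rw [e]
  have h1 := h (Finset.univ \ {i, j}) k (by
    simp only [Finset.mem_sdiff, Finset.mem_univ, true_and, Finset.mem_insert,
      Finset.mem_singleton, not_or]
    exact ⟨hik.symm, hjk.symm⟩)
  have h2 := ZA_two f1 f2 u N K hK h i j hij
  calc ZA f1 f2 u ((Finset.univ \ {i, j} : Finset (Fin N)).erase k)
      ≤ K * ZA f1 f2 u (Finset.univ \ {i, j}) := h1
    _ ≤ K * (K ^ 2 * ZA f1 f2 u Finset.univ) := mul_le_mul_of_nonneg_left h2 hK.le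
    _ = _ := by ring

/-! ### the upper bound -/

theorem up : S_TR1 → S_TR2 → S_SYM → S_JAB → S_CL → S_Z → S_UEN → S_MASS2 → S_MASS3 → S_UP := by
  intro hT1 hT2 hSYM hJAB hCL hZ hUEN hM2 hM3 Vext W V aE aW aV ε hε
  set β := b1 W with hβ
  set γ := b2 V with hγ
  obtain ⟨u, hu, hgp⟩ := exists_u Vext β γ (ε / 4) (by positivity)
  have hU4 : 0 ≤ ∫ x, ‖u x‖ ^ 4 := integral_nonneg fun x => by positivity
  have hU6 : 0 ≤ ∫ x, ‖u x‖ ^ 6 := integral_nonneg fun x => by positivity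
  have hgpJ : gpJ Vext β γ u = (∫ z, (g3 u z + Vext z * ‖u z‖ ^ 2)) + β / 2 * (∫ x, ‖u x‖ ^ 4)
      + γ / 6 * ∫ x, ‖u x‖ ^ 6 := by
    have hc := hu.diff.continuous
    have i1 : Integrable (fun z => g3 u z + Vext z * ‖u z‖ ^ 2) := nb_integrable (nb_h Vext aE u hu)
    have i2 : Integrable (fun z => β / 2 * ‖u z‖ ^ 4) := by
      refine Integrable.const_mul ?_ _
      refine (hc.norm.pow 4).integrable_of_hasCompactSupport ?_
      exact hu.supp.comp_left (g := fun t : ℂ => ‖t‖ ^ 4) (by simp)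
    have i3 : Integrable (fun z => γ / 6 * ‖u z‖ ^ 6) := by
      refine Integrable.const_mul ?_ _
      refine (hc.norm.pow 6).integrable_of_hasCompactSupport ?_
      exact hu.supp.comp_left (g := fun t : ℂ => ‖t‖ ^ 6) (by simp)
    have e1 : gpJ Vext β γ u = ∫ z, ((g3 u z + Vext z * ‖u z‖ ^ 2) + β / 2 * ‖u z‖ ^ 4
        + γ / 6 * ‖u z‖ ^ 6) := rfl
    have e2 : ∫ z, ((g3 u z + Vext z * ‖u z‖ ^ 2) + β / 2 * ‖u z‖ ^ 4 + γ / 6 * ‖u z‖ ^ 6)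
        = (∫ z, ((g3 u z + Vext z * ‖u z‖ ^ 2) + β / 2 * ‖u z‖ ^ 4)) + ∫ z, γ / 6 * ‖u z‖ ^ 6 :=
      integral_add (i1.add i2) i3
    have e3 : ∫ z, ((g3 u z + Vext z * ‖u z‖ ^ 2) + β / 2 * ‖u z‖ ^ 4)
        = (∫ z, (g3 u z + Vext z * ‖u z‖ ^ 2)) + ∫ z, β / 2 * ‖u z‖ ^ 4 :=
      integral_add i1 i2
    rw [e1, e2, e3, integral_const_mul, integral_const_mul]
  set U4 := ∫ x, ‖u x‖ ^ 4 with hU4d
  set U6 := ∫ x, ‖u x‖ ^ 6 with hU6d
  obtain ⟨δ, hδ, hδ'⟩ : ∃ δ : ℝ, 0 < δ ∧ δ * (U4 + U6) ≤ ε / 8 := by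
    refine ⟨ε / (8 * (1 + (U4 + U6))), by positivity, ?_⟩
    rw [div_mul_eq_mul_div, div_le_div_iff₀ (by positivity) (by norm_num)]
    nlinarith
  obtain ⟨R1, f1, hR1, hf1, hq1⟩ := hT1 W aW δ hδ
  obtain ⟨R2, f2, hR2, hf2, hq2⟩ := hT2 V aV δ hδ
  obtain ⟨C, hC, hUE⟩ := hUEN Vext W V aE aW aV u hu R1 R2 f1 f2 hR1 hR2 hf1 hf2
  obtain ⟨D, hD, hZ'⟩ := hZ u hu R1 R2 f1 f2 hR1 hR2 hf1 hf2
  obtain ⟨C', hC', hCL'⟩ := hCL u hu
  have nh := nb_h Vext aE u hu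
  have n1 := nb_q1 W aW R1 f1 hf1
  have n2 := nb_q2 V aV R2 f2 hf2
  have hH : 0 ≤ ∫ z, (g3 u z + Vext z * ‖u z‖ ^ 2) := integral_nonneg nh.nonneg
  have hQ1 : 0 ≤ ∫ z, (2 * g3r f1 z + W z * f1 z ^ 2) := integral_nonneg n1.nonneg
  have hQ2 : 0 ≤ ∫ z, (g6r f2 z + V z * f2 z ^ 2) := integral_nonneg n2.nonneg
  have m2 := hM2 u hu R1 R2 f1 f2 hf1 hf2 _ n1 (ε / 8) (by positivity)
  have m3 := hM3 u hu R1 R2 f1 f2 hf1 hf2 _ n2 (ε / 8) (by positivity)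
  rw [← hU4d] at m2
  rw [← hU6d] at m3
  set H := ∫ z, (g3 u z + Vext z * ‖u z‖ ^ 2) with hHd
  set Q1 := ∫ z, (2 * g3r f1 z + W z * f1 z ^ 2) with hQ1d
  set Q2 := ∫ z, (g6r f2 z + V z * f2 z ^ 2) with hQ2d
  have lim : Tendsto (fun N : ℕ => H * (1 + D / (N : ℝ)) + 1 / 2 * (Q1 * U4 + ε / 8) * (1 + D / (N : ℝ)) ^ 2
      + 1 / 6 * (Q2 * U6 + ε / 8) * (1 + D / (N : ℝ)) ^ 3 + C * (Real.sqrt (N : ℝ))⁻¹) atTop
      (nhds (H * (1 + 0) + 1 / 2 * (Q1 * U4 + ε / 8) * (1 + 0) ^ 2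
        + 1 / 6 * (Q2 * U6 + ε / 8) * (1 + 0) ^ 3 + C * 0)) := by
    have t1 : Tendsto (fun N : ℕ => D / (N : ℝ)) atTop (nhds 0) :=
      tendsto_const_div_atTop_nhds_zero_nat D
    have t2 : Tendsto (fun N : ℕ => (Real.sqrt (N : ℝ))⁻¹) atTop (nhds 0) :=
      tendsto_inv_atTop_zero.comp (Real.tendsto_sqrt_atTop.comp tendsto_natCast_atTop_atTop)
    have t3 : Tendsto (fun N : ℕ => 1 + D / (N : ℝ)) atTop (nhds (1 + 0)) :=
      tendsto_const_nhds.add t1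
    exact (((t3.const_mul H).add ((t3.pow 2).const_mul _)).add ((t3.pow 3).const_mul _)).add
      (t2.const_mul C)
  have hlt : H * (1 + 0) + 1 / 2 * (Q1 * U4 + ε / 8) * (1 + 0) ^ 2
        + 1 / 6 * (Q2 * U6 + ε / 8) * (1 + 0) ^ 3 + C * 0 < gpE Vext β γ + ε := by
    have a1 : Q1 * U4 ≤ (β + δ) * U4 := mul_le_mul_of_nonneg_right hq1 hU4
    have a2 : Q2 * U6 ≤ (γ + δ) * U6 := mul_le_mul_of_nonneg_right hq2 hU6
    rw [hgpJ] at hgp
    have a3 : 0 ≤ δ * U4 := by positivity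
    have a4 : 0 ≤ δ * U6 := by positivity
    nlinarith
  filter_upwards [hUE, hZ', m2, m3, lim.eventually_lt_const hlt, eventually_ge_atTop 1] with
    N h1 h2 h3 h4 h5 h6
  have hN : (0 : ℝ) < N := by exact_mod_cast h6
  have hK : 0 < 1 + D / (N : ℝ) := by positivity
  have hZpos : 0 < ZA f1 f2 u (Finset.univ : Finset (Fin N)) :=
    ZA_pos f1 f2 u hu N _ hK h2 _
  have hsym := hSYM u hu R1 R2 f1 f2 hf1 hf2 N
  have hnorm : ∫ x, ‖Psi N f1 f2 u x‖ ^ 2 = ZA f1 f2 u (Finset.univ : Finset (Fin N)) := by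
    unfold ZA
    exact integral_congr_ae (Eventually.of_forall fun x => hsym.2.2.2 x)
  have hEN := EN_le N Vext W V aE aW aV _ hsym.1 hsym.2.1 hsym.2.2.1 _ hZpos hnorm
  set Z := ZA f1 f2 u (Finset.univ : Finset (Fin N)) with hZd
  set K := 1 + D / (N : ℝ) with hKd
  -- one particle terms
  have b1' : (∑ m : Fin N, ∫ x : Cfg N, wh (fun z => g3 u z + Vext z * ‖u z‖ ^ 2) u m x
        * (JA f1 f2 (Finset.univ.erase m) x) ^ 2) ≤ N * (H * (K * Z)) := by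
    calc (∑ m : Fin N, ∫ x : Cfg N, wh (fun z => g3 u z + Vext z * ‖u z‖ ^ 2) u m x
        * (JA f1 f2 (Finset.univ.erase m) x) ^ 2) ≤ ∑ _m : Fin N, H * (K * Z) := by
          refine Finset.sum_le_sum fun m _ => ?_
          have c1 := hCL' R1 R2 f1 f2 hf1 hf2 _ nh N m ∅ (Finset.univ.erase m)
            (Finset.notMem_empty _) (Finset.notMem_erase _ _) (Finset.disjoint_empty_left _)
            (fun _ => 0) (fun _ => le_rfl)
          simp only [Finset.prod_empty, one_mul, mul_one] at c1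
          refine c1.trans ?_
          exact mul_le_mul_of_nonneg_left (h2 Finset.univ m (Finset.mem_univ _)) hH
      _ = _ := by simp
  -- pairs
  have b2' := pair_sum_le N (fun i j => ∫ x : Cfg N, wu u x *
          ((N : ℝ) ^ 2 * (2 * g3r f1 ((N : ℝ) • (x i - x j))
              + W ((N : ℝ) • (x i - x j)) * f1 ((N : ℝ) • (x i - x j)) ^ 2)
            * (JA f1 f2 (Finset.univ \ {i, j}) x) ^ 2))
          (1 / (N : ℝ) * (Q1 * U4 + ε / 8) * (K ^ 2 * Z)) (by positivity) (by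
      intro i j hij
      refine (h3 i j (ne_of_lt hij)).trans ?_
      exact mul_le_mul_of_nonneg_left (ZA_two f1 f2 u N K hK h2 i j (ne_of_lt hij))
        (by positivity))
  have b3' := trip_sum_le N (fun i j k => ∫ x : Cfg N, wu u x *
          ((N : ℝ) * (g6r f2 (Real.sqrt N • (x i - x j, x i - x k))
              + V (Real.sqrt N • (x i - x j, x i - x k))
                * f2 (Real.sqrt N • (x i - x j, x i - x k)) ^ 2)
            * (JA f1 f2 (Finset.univ \ {i, j, k}) x) ^ 2))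
          (1 / (N : ℝ) ^ 2 * (Q2 * U6 + ε / 8) * (K ^ 3 * Z)) (by positivity) (by
      intro i j k hij hjk
      refine (h4 i j k (ne_of_lt hij) (ne_of_lt (hij.trans hjk)) (ne_of_lt hjk)).trans ?_
      exact mul_le_mul_of_nonneg_left (ZA_three f1 f2 u N K hK h2 i j k (ne_of_lt hij)
        (ne_of_lt (hij.trans hjk)) (ne_of_lt hjk)) (by positivity))
  have hsq : Real.sqrt (N : ℝ) = (N : ℝ) * (Real.sqrt (N : ℝ))⁻¹ := by
    have : 0 < Real.sqrt (N : ℝ) := Real.sqrt_pos.mpr hN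
    field_simp
    rw [Real.sq_sqrt hN.le]
  have hfin : enN N Vext W V (Psi N f1 f2 u) ≤ (N * Z) * (H * K + 1 / 2 * (Q1 * U4 + ε / 8) * K ^ 2
      + 1 / 6 * (Q2 * U6 + ε / 8) * K ^ 3 + C * (Real.sqrt (N : ℝ))⁻¹) := by
    refine h1.trans ?_
    have e1 : (N : ℝ) ^ 2 / 2 * (1 / (N : ℝ) * (Q1 * U4 + ε / 8) * (K ^ 2 * Z))
        = (N * Z) * (1 / 2 * (Q1 * U4 + ε / 8) * K ^ 2) := by
      field_simp
    have e2 : (N : ℝ) ^ 3 / 6 * (1 / (N : ℝ) ^ 2 * (Q2 * U6 + ε / 8) * (K ^ 3 * Z))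
        = (N * Z) * (1 / 6 * (Q2 * U6 + ε / 8) * K ^ 3) := by
      field_simp
    have e3 : C * Real.sqrt (N : ℝ) * Z = (N * Z) * (C * (Real.sqrt (N : ℝ))⁻¹) := by
      nth_rewrite 1 [hsq]
      ring
    have e4 : (N : ℝ) * (H * (K * Z)) = (N * Z) * (H * K) := by ring
    rw [e1] at b2'
    rw [e2] at b3'
    rw [e4] at b1'
    rw [e3]
    have := add_le_add (add_le_add b1' b2') b3'
    linarith
  calc EN N Vext W V / N ≤ (enN N Vext W V (Psi N f1 f2 u) / Z) / N :=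
        div_le_div_of_nonneg_right hEN hN.le
    _ ≤ H * K + 1 / 2 * (Q1 * U4 + ε / 8) * K ^ 2
      + 1 / 6 * (Q2 * U6 + ε / 8) * K ^ 3 + C * (Real.sqrt (N : ℝ))⁻¹ := by
        rw [div_div, div_le_iff₀ (by positivity)]
        calc enN N Vext W V (Psi N f1 f2 u) ≤ _ := hfin
          _ = _ := by ring
    _ ≤ gpE Vext β γ + ε := h5.le

end Pool.Agent.W701.TWB
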