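import Pool.Agent.W734.TWB.Stms

set_option autoImplicit false

noncomputable section

namespace Pool.Agent.W701.TWB

open MeasureTheory Set Filter Metric
open Pool.Agent.W734.TWB

/-! ### counting -/

lemma sum_Ioi_rev (N : ℕ) (g : ℕ → ℝ) (i : Fin N) :
    ∑ j ∈ Finset.Ioi i, g (N - 1 - (j : ℕ)) = ∑ k ∈ Finset.range (N - 1 - (i : ℕ)), g k := by
  refine Finset.sum_bij (fun (j : Fin N) _ => N - 1 - (j : ℕ)) ?_ ?_ ?_ ?_
  · intro j hj
    rw [Finset.mem_Ioi] at hj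
    have h1 : (i : ℕ) < (j : ℕ) := hj
    have h2 := j.2
    rw [Finset.mem_range]
    omega
  · intro a ha b hb hab
    have h1 := a.2
    have h2 := b.2
    apply Fin.ext
    omega
  · intro k hk
    rw [Finset.mem_range] at hk
    have h1 := i.2
    refine ⟨⟨N - 1 - k, by omega⟩, ?_, ?_⟩
    · rw [Finset.mem_Ioi]
      change (i : ℕ) < N - 1 - k
      omega
    · simp only
      omega
  · intro j hj
    rfl

lemma sum_univ_rev (N : ℕ) (g : ℕ → ℝ) :
    ∑ i : Fin N, g (N - 1 - (i : ℕ)) = ∑ k ∈ Finset.range N, g k := by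
  rw [← Finset.sum_range_reflect g N, Finset.sum_range]

lemma sum_range_id_le (m : ℕ) : ∑ k ∈ Finset.range m, (k : ℝ) ≤ (m : ℝ) ^ 2 / 2 := by
  induction m with
  | zero => simp
  | succ n ih =>
    rw [Finset.sum_range_succ]
    push_cast
    nlinarith

lemma sum_range_sq_le (m : ℕ) : ∑ k ∈ Finset.range m, ((k : ℝ) ^ 2 / 2) ≤ (m : ℝ) ^ 3 / 6 := by
  induction m with
  | zero => simp
  | succ n ih =>
    rw [Finset.sum_range_succ]
    push_cast
    have : (0 : ℝ) ≤ n := Nat.cast_nonneg n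
    nlinarith

lemma card_Ioi_cast (N : ℕ) (i : Fin N) :
    ∑ _j ∈ Finset.Ioi i, (1 : ℝ) = ((N - 1 - (i : ℕ) : ℕ) : ℝ) := by
  have h := sum_Ioi_rev N (fun _ => 1) i
  simp only [Finset.sum_const, Finset.card_range, nsmul_eq_mul, mul_one] at h ⊢
  exact h

lemma pair_count (N : ℕ) : ∑ i : Fin N, ∑ _j ∈ Finset.Ioi i, (1 : ℝ) ≤ (N : ℝ) ^ 2 / 2 := by
  have h : ∑ i : Fin N, ∑ _j ∈ Finset.Ioi i, (1 : ℝ) = ∑ k ∈ Finset.range N, (k : ℝ) := by
    rw [← sum_univ_rev N (fun k => (k : ℝ))]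
    exact Finset.sum_congr rfl fun i _ => card_Ioi_cast N i
  rw [h]
  exact sum_range_id_le N

lemma trip_count (N : ℕ) :
    ∑ i : Fin N, ∑ j ∈ Finset.Ioi i, ∑ _k ∈ Finset.Ioi j, (1 : ℝ) ≤ (N : ℝ) ^ 3 / 6 := by
  have h : ∑ i : Fin N, ∑ j ∈ Finset.Ioi i, ∑ _k ∈ Finset.Ioi j, (1 : ℝ)
      = ∑ i : Fin N, ∑ k ∈ Finset.range (N - 1 - (i : ℕ)), (k : ℝ) := by
    refine Finset.sum_congr rfl fun i _ => ?_
    rw [← sum_Ioi_rev N (fun k => (k : ℝ)) i]
    exact Finset.sum_congr rfl fun j _ => card_Ioi_cast N j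
  rw [h]
  calc ∑ i : Fin N, ∑ k ∈ Finset.range (N - 1 - (i : ℕ)), (k : ℝ)
      ≤ ∑ i : Fin N, (((N - 1 - (i : ℕ) : ℕ) : ℝ) ^ 2 / 2) :=
        Finset.sum_le_sum fun i _ => sum_range_id_le _
    _ = ∑ k ∈ Finset.range N, ((k : ℝ) ^ 2 / 2) := sum_univ_rev N (fun k => (k : ℝ) ^ 2 / 2)
    _ ≤ _ := sum_range_sq_le N

lemma pair_sum_le (N : ℕ) (A : Fin N → Fin N → ℝ) (K : ℝ) (hK : 0 ≤ K)
    (h : ∀ i j, i < j → A i j ≤ K) :
    ∑ i : Fin N, ∑ j ∈ Finset.Ioi i, A i j ≤ (N : ℝ) ^ 2 / 2 * K := by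
  calc ∑ i : Fin N, ∑ j ∈ Finset.Ioi i, A i j
      ≤ ∑ i : Fin N, ∑ j ∈ Finset.Ioi i, 1 * K :=
        Finset.sum_le_sum fun i _ => Finset.sum_le_sum fun j hj => by
          rw [one_mul]; exact h i j (Finset.mem_Ioi.mp hj)
    _ = (∑ i : Fin N, ∑ _j ∈ Finset.Ioi i, (1 : ℝ)) * K := by
        simp only [← Finset.sum_mul]
    _ ≤ _ := mul_le_mul_of_nonneg_right (pair_count N) hK

lemma trip_sum_le (N : ℕ) (A : Fin N → Fin N → Fin N → ℝ) (K : ℝ) (hK : 0 ≤ K)
    (h : ∀ i j k, i < j → j < k → A i j k ≤ K) :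
    ∑ i : Fin N, ∑ j ∈ Finset.Ioi i, ∑ k ∈ Finset.Ioi j, A i j k ≤ (N : ℝ) ^ 3 / 6 * K := by
  calc ∑ i : Fin N, ∑ j ∈ Finset.Ioi i, ∑ k ∈ Finset.Ioi j, A i j k
      ≤ ∑ i : Fin N, ∑ j ∈ Finset.Ioi i, ∑ k ∈ Finset.Ioi j, 1 * K :=
        Finset.sum_le_sum fun i _ => Finset.sum_le_sum fun j hj => Finset.sum_le_sum fun k hk => by
          rw [one_mul]; exact h i j k (Finset.mem_Ioi.mp hj) (Finset.mem_Ioi.mp hk)
    _ = (∑ i : Fin N, ∑ j ∈ Finset.Ioi i, ∑ _k ∈ Finset.Ioi j, (1 : ℝ)) * K := by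
        simp only [← Finset.sum_mul]
    _ ≤ _ := mul_le_mul_of_nonneg_right (trip_count N) hK

/-! ### orbitals and nonnegative bounded functions -/

lemma exists_orb : ∃ u : E3 → ℂ, Orb u := by
  let f : ContDiffBump (0 : E3) := ⟨1, 2, one_pos, one_lt_two⟩
  have hc : Continuous fun x => (f x) ^ 2 := f.continuous.pow 2
  have hs : HasCompactSupport fun x => (f x) ^ 2 := by
    have := f.hasCompactSupport
    exact this.comp_left (g := fun t : ℝ => t ^ 2) (by norm_num)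
  have hI : 0 < ∫ x, (f x) ^ 2 := by
    refine hc.integral_pos_of_hasCompactSupport_nonneg_nonzero (x := 0) hs
      (fun x => sq_nonneg _) ?_
    have : f 0 = 1 := f.one_of_mem_closedBall (mem_closedBall_self f.rIn_pos.le)
    simp [this]
  set I := ∫ x, (f x) ^ 2 with hIdef
  have hsI : 0 < Real.sqrt I := Real.sqrt_pos.mpr hI
  refine ⟨fun x => (((Real.sqrt I)⁻¹ * f x : ℝ) : ℂ), ?_, ?_, ?_⟩
  · exact Complex.ofRealCLM.contDiff.comp (contDiff_const.mul f.contDiff)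
  · exact f.hasCompactSupport.comp_left (g := fun t : ℝ => (((Real.sqrt I)⁻¹ * t : ℝ) : ℂ))
      (by simp)
  · have : ∀ x, ‖(((Real.sqrt I)⁻¹ * f x : ℝ) : ℂ)‖ ^ 2 = I⁻¹ * (f x) ^ 2 := by
      intro x
      rw [Complex.norm_real, Real.norm_eq_abs, sq_abs, mul_pow, inv_pow, Real.sq_sqrt hI.le]
    simp_rw [this]
    rw [integral_const_mul, ← hIdef]
    exact inv_mul_cancel₀ hI.ne'

lemma exists_u (Vext : E3 → ℝ) (β γ ε : ℝ) (hε : 0 < ε) :
    ∃ u : E3 → ℂ, Orb u ∧ gpJ Vext β γ u < gpE Vext β γ + ε := by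
  obtain ⟨u0, hu0⟩ := exists_orb
  have hne : {E : ℝ | ∃ u : E3 → ℂ, ContDiff ℝ ((⊤ : ℕ∞) : WithTop ℕ∞) u ∧ HasCompactSupport u ∧
    ∫ x, ‖u x‖ ^ 2 = 1 ∧ E = gpJ Vext β γ u}.Nonempty :=
    ⟨_, u0, hu0.diff, hu0.supp, hu0.norm, rfl⟩
  obtain ⟨E, ⟨u, h1, h2, h3, rfl⟩, hE⟩ := Real.lt_sInf_add_pos hne hε
  exact ⟨u, ⟨h1, h2, h3⟩, hE⟩

lemma nb_integrable {h : E3 → ℝ} (hh : NB h) : Integrable h := by
  obtain ⟨M, hM⟩ := hh.bdd
  have h1 : IntegrableOn h (tsupport h) := by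
    refine Measure.integrableOn_of_bounded (M := M) hh.supp.isCompact.measure_lt_top.ne
      hh.meas.aestronglyMeasurable ?_
    refine Eventually.of_forall fun x => ?_
    rw [Real.norm_eq_abs, abs_of_nonneg (hh.nonneg x)]
    exact hM x
  exact (integrableOn_iff_integrable_of_support_subset (subset_tsupport h)).mp h1

lemma continuous_g3 {u : E3 → ℂ} (hu : ContDiff ℝ ((⊤ : ℕ∞) : WithTop ℕ∞) u) :
    Continuous (g3 u) := by
  unfold g3
  refine continuous_finsetSum _ fun k _ => ?_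
  exact ((hu.continuous_fderiv (by simp)).clm_apply continuous_const).norm.pow 2

lemma continuous_g3r {f : E3 → ℝ} (hu : ContDiff ℝ ((⊤ : ℕ∞) : WithTop ℕ∞) f) :
    Continuous (g3r f) := by
  unfold g3r
  refine continuous_finsetSum _ fun k _ => ?_
  exact ((hu.continuous_fderiv (by simp)).clm_apply continuous_const).pow 2

lemma continuous_g6r {f : E3 × E3 → ℝ} (hu : ContDiff ℝ ((⊤ : ℕ∞) : WithTop ℕ∞) f) :
    Continuous (g6r f) := by
  unfold g6r
  refine continuous_finsetSum _ fun k _ => ?_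
  have hf : Continuous (fderiv ℝ f) := hu.continuous_fderiv (by simp)
  exact (((hf.clm_apply continuous_const).pow 2).add ((hf.clm_apply continuous_const).pow 2)).add
    ((hf.clm_apply continuous_const).pow 2)

lemma g3_nonneg (u : E3 → ℂ) (x : E3) : 0 ≤ g3 u x := Finset.sum_nonneg fun _ _ => sq_nonneg _
lemma g3r_nonneg (u : E3 → ℝ) (x : E3) : 0 ≤ g3r u x := Finset.sum_nonneg fun _ _ => sq_nonneg _
lemma g6r_nonneg (u : E3 × E3 → ℝ) (x : E3 × E3) : 0 ≤ g6r u x :=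
  Finset.sum_nonneg fun _ _ => by positivity

lemma vext_nonneg {Vext : E3 → ℝ} (hE : AdmE Vext) (x : E3) : 0 ≤ Vext x := by
  obtain ⟨C, α, hC, hα, h⟩ := hE.low
  exact le_trans (by positivity) (h x)

lemma nb_h (Vext : E3 → ℝ) (hE : AdmE Vext) (u : E3 → ℂ) (hu : Orb u) :
    NB (fun z => g3 u z + Vext z * ‖u z‖ ^ 2) := by
  have hc := hu.diff.continuous
  have hz : ∀ x, x ∉ tsupport u → g3 u x = 0 := by
    intro x hx
    simp [g3, fderiv_of_notMem_tsupport (𝕜 := ℝ) hx]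
  have hcs : HasCompactSupport (g3 u) := HasCompactSupport.intro hu.supp.isCompact hz
  obtain ⟨B1, hB1⟩ := hcs.exists_bound_of_continuous (continuous_g3 hu.diff)
  obtain ⟨B2, hB2⟩ := hu.supp.exists_bound_of_continuous hc
  obtain ⟨M, hM⟩ := hE.loc _ hu.supp.isCompact
  refine ⟨?_, ?_, ?_, ?_⟩
  · exact (continuous_g3 hu.diff).measurable.add (hE.meas.mul (hc.norm.pow 2).measurable)
  · intro x
    have := g3_nonneg u x
    have := vext_nonneg hE x
    positivity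
  · refine ⟨B1 + |M| * B2 ^ 2, fun x => ?_⟩
    have h1 : g3 u x ≤ B1 := (le_abs_self _).trans (hB1 x)
    have h2 : Vext x * ‖u x‖ ^ 2 ≤ |M| * B2 ^ 2 := by
      by_cases hx : x ∈ tsupport u
      · refine mul_le_mul ((le_abs_self _).trans ((hM x hx).trans (le_abs_self _))) ?_ (by positivity)
          (abs_nonneg _)
        exact pow_le_pow_left₀ (norm_nonneg _) (hB2 x) 2
      · rw [image_eq_zero_of_notMem_tsupport hx]
        simp only [norm_zero]
        have : (0 : ℝ) ≤ |M| * B2 ^ 2 := by positivity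
        simpa using this
    exact add_le_add h1 h2
  · refine HasCompactSupport.intro hu.supp.isCompact fun x hx => ?_
    rw [hz x hx, image_eq_zero_of_notMem_tsupport hx]
    simp

lemma nb_q1 (W : E3 → ℝ) (hW : AdmW W) (R : ℝ) (f : E3 → ℝ) (hf : PairF R f) :
    NB (fun z => 2 * g3r f z + W z * f z ^ 2) := by
  have hz : ∀ x, x ∉ closedBall (0 : E3) R → g3r f x = 0 := by
    intro x hx
    have hx' : R < ‖x‖ := by
      rw [mem_closedBall_zero_iff, not_le] at hx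
      exact hx
    have he : f =ᶠ[nhds x] fun _ => (1 : ℝ) := by
      filter_upwards [(isOpen_lt continuous_const continuous_norm).mem_nhds hx'] with y hy
      exact hf.one y (le_of_lt hy)
    simp [g3r, he.fderiv_eq]
  have hcs : HasCompactSupport (g3r f) := HasCompactSupport.intro (isCompact_closedBall 0 R) hz
  obtain ⟨B1, hB1⟩ := hcs.exists_bound_of_continuous (continuous_g3r hf.diff)
  obtain ⟨M, hM⟩ := hW.bdd
  refine ⟨?_, ?_, ?_, ?_⟩
  · exact ((continuous_g3r hf.diff).measurable.const_mul 2).add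
      (hW.meas.mul (hf.diff.continuous.pow 2).measurable)
  · intro x
    have := g3r_nonneg f x
    have := hW.nonneg x
    positivity
  · refine ⟨2 * B1 + M, fun x => ?_⟩
    have h1 : g3r f x ≤ B1 := (le_abs_self _).trans (hB1 x)
    have h3 : f x ^ 2 ≤ 1 := pow_le_one₀ (hf.nonneg x) (hf.le_one x)
    have h2 : W x * f x ^ 2 ≤ M := by
      calc W x * f x ^ 2 ≤ W x * 1 := mul_le_mul_of_nonneg_left h3 (hW.nonneg x)
        _ ≤ M := by rw [mul_one]; exact hM x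
    linarith
  · refine HasCompactSupport.intro ((isCompact_closedBall (0 : E3) R).union hW.supp.isCompact)
      fun x hx => ?_
    rw [mem_union, not_or] at hx
    rw [hz x hx.1, image_eq_zero_of_notMem_tsupport hx.2]
    simp

lemma nb_q2 (V : E3 × E3 → ℝ) (hV : AdmV V) (R : ℝ) (f : E3 × E3 → ℝ) (hf : TripF R f) :
    NB (fun z => g6r f z + V z * f z ^ 2) := by
  have hz : ∀ x, x ∉ closedBall (0 : E3 × E3) R → g6r f x = 0 := by
    intro x hx
    have hx' : R < ‖x‖ := by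
      rw [mem_closedBall_zero_iff, not_le] at hx
      exact hx
    have he : f =ᶠ[nhds x] fun _ => (1 : ℝ) := by
      filter_upwards [(isOpen_lt continuous_const continuous_norm).mem_nhds hx'] with y hy
      exact hf.one y (le_of_lt hy)
    simp [g6r, he.fderiv_eq]
  have hcs : HasCompactSupport (g6r f) := HasCompactSupport.intro (isCompact_closedBall 0 R) hz
  obtain ⟨B1, hB1⟩ := hcs.exists_bound_of_continuous (continuous_g6r hf.diff)
  obtain ⟨M, hM⟩ := hV.bdd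
  refine ⟨?_, ?_, ?_, ?_⟩
  · exact (continuous_g6r hf.diff).measurable.add
      (hV.meas.mul (hf.diff.continuous.pow 2).measurable)
  · intro x
    have := g6r_nonneg f x
    have := hV.nonneg x
    positivity
  · refine ⟨B1 + M, fun x => ?_⟩
    have h1 : g6r f x ≤ B1 := (le_abs_self _).trans (hB1 x)
    have h3 : f x ^ 2 ≤ 1 := pow_le_one₀ (hf.nonneg x) (hf.le_one x)
    have h2 : V x * f x ^ 2 ≤ M := by
      calc V x * f x ^ 2 ≤ V x * 1 := mul_le_mul_of_nonneg_left h3 (hV.nonneg x)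
        _ ≤ M := by rw [mul_one]; exact hM x
    linarith
  · refine HasCompactSupport.intro ((isCompact_closedBall (0 : E3 × E3) R).union hV.supp.isCompact)
      fun x hx => ?_
    rw [mem_union, not_or] at hx
    rw [hz x hx.1, image_eq_zero_of_notMem_tsupport hx.2]
    simp

end Pool.Agent.W701.TWB
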